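import Pool.Agent.Helper70.EH.Goals

/-! Project EH (MP_20ee5e_ag), packet EH-WT. -/

set_option autoImplicit false

namespace Pool.Agent.Helper76.EH.WT

open Pool.Agent.Helper70.EH Pool.Agent.Helper70.EQ Pool.Agent.Helper70.KN

theorem term_nonneg {r : ℕ} (k m : Fin r → ℕ) : 0 ≤ ∏ i, (k i : ℝ) ^ m i :=
  Finset.prod_nonneg fun _ _ => by positivity

theorem t : G_WT := by
  intro r k hr hk
  obtain ⟨i0, -⟩ : ∃ i0 : Fin r, i0.val = 0 := ⟨⟨0, hr⟩, rfl⟩
  refine ⟨fun M => ?_, fun M => Finset.sum_nonneg fun m _ => term_nonneg k m, ?_⟩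
  · unfold wt
    set S : ℕ → Finset (Fin r → ℕ) := fun M =>
      (Finset.piAntidiag Finset.univ M).filter (fun m : Fin r → ℕ => ∀ i, 1 ≤ m i) with hS
    have inj : Function.Injective (fun m : Fin r → ℕ => m + Pi.single i0 1) :=
      add_left_injective _
    have h1 : ∑ m ∈ S M, ∏ i, (k i : ℝ) ^ m i ≤
        ∑ m ∈ S M, ∏ i, (k i : ℝ) ^ ((m + Pi.single i0 1 : Fin r → ℕ)) i := by
      refine Finset.sum_le_sum fun m _ => ?_
      refine Finset.prod_le_prod (fun i _ => by positivity) fun i _ => ?_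
      refine pow_le_pow_right₀ (by exact_mod_cast hk i) ?_
      rw [Pi.add_apply]
      exact Nat.le_add_right _ _
    refine h1.trans ?_
    have h4 := Finset.sum_map (S M) ⟨_, inj⟩ (fun m : Fin r → ℕ => ∏ i, (k i : ℝ) ^ m i)
    refine h4.symm.le.trans ?_
    refine Finset.sum_le_sum_of_subset_of_nonneg ?_ fun m _ _ => term_nonneg k m
    intro m hm
    rw [Finset.mem_map] at hm
    obtain ⟨m', hm', rfl⟩ := hm
    simp only [hS, Finset.mem_filter, Finset.mem_piAntidiag, Function.Embedding.coeFn_mk] at hm' ⊢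
    obtain ⟨⟨h2, -⟩, h3⟩ := hm'
    refine ⟨⟨?_, fun i _ => Finset.mem_univ i⟩, fun i => ?_⟩
    · simp only [Pi.add_apply, Finset.sum_add_distrib, h2, Finset.sum_pi_single', Finset.mem_univ, if_true]
    · rw [Pi.add_apply]
      exact (h3 i).trans (Nat.le_add_right _ _)
  · unfold wt
    have hmem : (fun _ : Fin r => 1) ∈ (Finset.piAntidiag Finset.univ r).filter
        (fun m : Fin r → ℕ => ∀ i, 1 ≤ m i) := by
      simp [Finset.mem_filter, Finset.mem_piAntidiag]
    refine le_trans ?_ (Finset.single_le_sum (fun m _ => term_nonneg k m) hmem)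
    have h : ∀ i ∈ (Finset.univ : Finset (Fin r)), (1 : ℝ) ≤ (k i : ℝ) ^ 1 := fun i _ => by
      rw [pow_one]
      exact_mod_cast hk i
    exact Finset.one_le_prod h

end Pool.Agent.Helper76.EH.WT
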